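import Pool.Agent.W_MP_a18a27_co.Limsup

set_option autoImplicit false

namespace Pool.Agent.Results.MP_a18a27_co.LimsupThird

open Finset

/-- Every infinite `B_3` sequence `a 0 < a 1 < ...` of integers satisfies
`limsup a_n / n^3 ≥ 1/3`; if its terms are positive, then moreover
`∑_{k ≤ n} k (k - 1) / a_k ≤ 1 + log (2 a_n)` for every `n`. -/
theorem result (a : ℕ → ℤ) (hmono : StrictMono a)
    (hB3 : ∀ i j l i' j' l' : ℕ, i ≤ j → j ≤ l → i' ≤ j' → j' ≤ l' →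
      a i + a j + a l = a i' + a j' + a l' → i = i' ∧ j = j' ∧ l = l') :
    (0 < a 0 → ∀ n : ℕ,
      ∑ k ∈ range (n + 1), ((k : ℝ) * ((k : ℝ) - 1)) / (a k : ℝ) ≤ 1 + Real.log (2 * (a n : ℝ))) ∧
    (∀ c : ℝ, c < 1 / 3 → ∀ N : ℕ, ∃ n : ℕ, N ≤ n ∧ c * ((n : ℝ) + 1) ^ 3 < (a n : ℝ)) :=
  ⟨fun h0 n => W_MP_a18a27_co.main_ineq hmono hB3 h0 n,
    fun _ hc N => W_MP_a18a27_co.limsup_ge hmono hB3 hc N⟩

end Pool.Agent.Results.MP_a18a27_co.LimsupThird
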