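import Pool.Agent.W_a18a27_h10.Nfa3
import Pool.Agent.W_a18a27_h10.Few1c92

set_option autoImplicit false

/-!
# Dense Sidon sets and `B₃` sequences have high complexity across the cuts of the digits

Numbers are written in base `k` with `m` digits. A rectangle is a set of digit strings which is
closed under exchanging the digits outside of a set `P` of positions.

(1) The number of members in `[0, k ^ m)` of a Sidon or `B₃` set whose digit strings are, for `d`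
families of cuts, unions of `r` rectangles.

(2) The same for the sets recognized by nondeterministic one-tape machines.

(3) The same for the sets recognized by nondeterministic finite automata.

(4) `limsup a n / n ^ 3 = ∞` for every infinite `B₃` sequence of integers such that, for suitable
arbitrarily large `m`, all but `o (k ^ (m / 3))` of its members in `[0, k ^ m)` form a set with such
covers, or a set which is recognized on `m` digits by a one-tape machine with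
`(T q + 1) ^ (100 T) ≤ k ^ (m ^ 2)`, or by a finite automaton with `s` states,
`N m ^ 3 s ^ 4 ≤ k ^ m` (so at most `k ^ ((1 / 4 - ε) m)` states), or a set which is a union of `r`
rectangles for the single cut into the lower and the upper half of the digits, `N r ^ 6 ≤ k ^ m`.
-/

namespace Pool.Agent.Results.MP_a18a27_co.LowComplexity

open Pool.Agent.W_a18a27_h10

theorem result :
    (∀ (A : Set ℤ) (k m d r b t κ : ℕ) (K : ℕ → Set (Finset (Fin m))), 1 ≤ k →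
      K 0 = {∅} → K (d + 1) = {Finset.univ} → (∀ i ≤ d + 1, (K i).ncard ≤ κ) →
      (∀ i ≤ d, ∀ P ∈ K i, ∀ P' ∈ K (i + 1), (P' \ P).card ≤ b) →
      (∀ i, 1 ≤ i → i ≤ d → RectCover (K i) r {x : Fin m → Fin k | val x ∈ A}) →
      ((IsSidon A ∧ r < (t + 1) * t) ∨ (IsB3Z A ∧ r < (t + 1) * t * t)) →
      (A ∩ Set.Ico 0 ((k : ℤ) ^ m)).ncard ≤ κ * t * k ^ b * (d * r + 2)) ∧
    (∀ (A : Set ℤ) (k m : ℕ) (Q Γ : Type) [Fintype Q] (M : Machine k m Q Γ) (T w d t r : ℕ),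
      1 ≤ k → M.Recognizes T A → 1 ≤ w → m ≤ (d + 1) * w →
      r = w * (T * Fintype.card Q + 1) ^ (T / w) →
      ((IsSidon A ∧ r < (t + 1) * t) ∨ (IsB3Z A ∧ r < (t + 1) * t * t)) →
      (A ∩ Set.Ico 0 ((k : ℤ) ^ m)).ncard ≤ w * t * k ^ (2 * w) * (d * r + 2)) ∧
    (∀ (A : Set ℤ) (k d : ℕ) (σ : Type) [Fintype σ] (D : NFA (Fin k) σ)
      (lay : Equiv.Perm (Fin (d + 1))) (t : ℕ), 1 ≤ k →
      (∀ x : Fin (d + 1) → Fin k, word lay x ∈ D.accepts ↔ val x ∈ A) →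
      ((IsSidon A ∧ Fintype.card σ < (t + 1) * t) ∨
        (IsB3Z A ∧ Fintype.card σ < (t + 1) * t * t)) →
      (A ∩ Set.Ico 0 ((k : ℤ) ^ (d + 1))).ncard ≤ t * k * (d * Fintype.card σ + 2)) ∧
    (∀ a : ℕ → ℤ, StrictMono a →
      (∀ i j l i' j' l' : ℕ, i ≤ j → j ≤ l → i' ≤ j' → j' ≤ l' →
        a i + a j + a l = a i' + a j' + a l' → i = i' ∧ j = j' ∧ l = l') →
      ((∀ N : ℕ, ∃ (k m d r b t κ : ℕ) (K : ℕ → Set (Finset (Fin m))) (A' : Set ℤ), 1 ≤ k ∧
          K 0 = {∅} ∧ K (d + 1) = {Finset.univ} ∧ (∀ i ≤ d + 1, (K i).ncard ≤ κ) ∧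
          (∀ i ≤ d, ∀ P ∈ K i, ∀ P' ∈ K (i + 1), (P' \ P).card ≤ b) ∧
          AlmostAll (Set.range a) A' k m N ∧
          (∀ i, 1 ≤ i → i ≤ d → RectCover (K i) r {x : Fin m → Fin k | val x ∈ A'}) ∧
          r < (t + 1) * t * t ∧ N * (κ * t * k ^ b * (d * r + 2)) ^ 3 ≤ k ^ m) ∨
        (∃ k : ℕ, 2 ≤ k ∧ ∀ N : ℕ, ∃ m ≥ N, ∃ A' : Set ℤ, AlmostAll (Set.range a) A' k m N ∧
          ∃ (Q Γ : Type) (_ : Fintype Q) (M : Machine k m Q Γ) (T : ℕ), M.Recognizes T A' ∧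
            (T * Fintype.card Q + 1) ^ (100 * T) ≤ k ^ (m ^ 2)) ∨
        (∃ k : ℕ, 2 ≤ k ∧ ∀ N : ℕ, ∃ m ≥ N, ∃ A' : Set ℤ, AlmostAll (Set.range a) A' k m N ∧
          ∃ (σ : Type) (_ : Fintype σ) (D : NFA (Fin k) σ) (lay : Equiv.Perm (Fin m)),
            (∀ x : Fin m → Fin k, word lay x ∈ D.accepts ↔ val x ∈ A') ∧
            N * m ^ 3 * Fintype.card σ ^ 4 ≤ k ^ m) ∨
        (∃ k : ℕ, 2 ≤ k ∧ ∀ N : ℕ, ∃ m ≥ N, ∃ A' : Set ℤ, AlmostAll (Set.range a) A' k m N ∧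
          ∃ r : ℕ, RectCover {lowHalf m} r {x : Fin m → Fin k | val x ∈ A'} ∧
            N * r ^ 6 ≤ k ^ m)) →
      ∀ C : ℝ, ∀ N : ℕ, ∃ n : ℕ, N ≤ n ∧ C * ((n : ℝ) + 1) ^ 3 < (a n : ℝ)) := by
  refine ⟨?_, ?_, ?_, ?_⟩
  · intro A k m d r b t κ K hk h0 h1 hK hb hc hA
    rw [ncard_Ico]
    exact (card_le_gen hk K h0 h1 hK hb hc hA).trans (le_of_eq (by ring))
  · intro A k m Q Γ _ M T w d t r hk hM hw hmd hr hA
    rw [ncard_Ico]
    subst hr
    exact (machine_bound3 hk hM hw hmd hA).trans (le_of_eq (by ring))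
  · intro A k d σ _ D lay t hk hD hA
    rw [ncard_Ico]
    exact (nfa_bound3 hk hD hA).trans (le_of_eq (by ring))
  · rintro a ha hB (h | ⟨k, hk, h⟩ | ⟨k, hk, h⟩ | ⟨k, hk, h⟩)
    · exact criterion3 ha hB h
    · exact machine_limsup3 ha hB hk h
    · exact nfa_limsup3 ha hB hk h
    · exact onecut_limsup ha hB hk h

end Pool.Agent.Results.MP_a18a27_co.LowComplexity
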