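import Pool.Agent.W_MP_a18a27_h33.GapCount

set_option autoImplicit false

namespace Pool.Agent.Results.MP_a18a27_co.SingularScales

open Finset

/-- Let `a 0 < a 1 < ...` be an infinite `B_3` sequence of integers.  Then `limsup a_n / n^3 = ∞`, or the sequence is
asymptotically singular:
(1) for every `ε > 0` there is an `r` such that for all but at most `ε J` of the scales `i < J` (`J` large) at most `ε 2^r` of the
`2^r` intervals `[s 2^(i-r), (s+1) 2^(i-r))` of `[0, 2^i)` contain all but at most `ε 2^(i/3)` of the terms in `[0, 2^i)`;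
(2) for every `δ > 0` there are infinitely many `m` such that at most `δ m` of the first `m` gaps `a_(n+1) - a_n` are
larger than `δ m^2`;
(3) `liminf (a_(n+k) - a_n) / n^2 = 0` for every `k`. -/
theorem result (a : ℕ → ℤ) (hmono : StrictMono a)
    (hB3 : ∀ i j l i' j' l' : ℕ, i ≤ j → j ≤ l → i' ≤ j' → j' ≤ l' →
      a i + a j + a l = a i' + a j' + a l' → i = i' ∧ j = j' ∧ l = l') :
    (∀ C : ℝ, ∀ N : ℕ, ∃ n : ℕ, N ≤ n ∧ C * ((n : ℝ) + 1) ^ 3 < (a n : ℝ)) ∨
    ((∀ ε : ℝ, 0 < ε →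
      ∃ r J0 : ℕ, ∀ J, J0 ≤ J → ∃ E : Finset ℕ, (E.card : ℝ) ≤ ε * J ∧ ∀ i < J, i ∉ E → r ≤ i ∧
        ∃ S : Finset ℕ, (S.card : ℝ) ≤ ε * 2 ^ r ∧
          (({n : ℕ | 0 ≤ a n ∧ a n < 2 ^ i ∧ ∀ s ∈ S,
            ¬ ((s : ℤ) * 2 ^ (i - r) ≤ a n ∧ a n < ((s : ℤ) + 1) * 2 ^ (i - r))}.ncard : ℕ) : ℝ)
            ≤ ε * (2 : ℝ) ^ ((i : ℝ) / 3)) ∧
      (∀ δ : ℝ, 0 < δ → ∀ N : ℕ, ∃ m : ℕ, N ≤ m ∧
        (((range m).filter (fun n => δ * (m : ℝ) ^ 2 < (a (n + 1) : ℝ) - a n)).card : ℝ) ≤ δ * m) ∧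
      (∀ k : ℕ, ∀ δ : ℝ, 0 < δ → ∀ N : ℕ, ∃ n : ℕ, N ≤ n ∧
        (a (n + k) : ℝ) - a n ≤ δ * ((n : ℝ) + 1) ^ 2)) := by
  classical
  have hB : A18.IsB3 a := hB3
  by_cases hq : ∀ C : ℝ, ∀ N : ℕ, ∃ n : ℕ, N ≤ n ∧ C * ((n : ℝ) + 1) ^ 3 < (a n : ℝ)
  · exact Or.inl hq
  right
  have hq' := hq
  push Not at hq'
  obtain ⟨C, N0, hC⟩ := hq'
  refine ⟨?_, fun δ hδ N => A18.gap_prop hmono hB C N0 hC δ hδ N, ?_⟩
  · intro ε hε
    obtain ⟨r, J0, hJ⟩ := A18.main_sing hmono hB C N0 hC ε hε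
    refine ⟨r, J0, fun J hJ0 => ?_⟩
    refine ⟨(range J).filter (fun i => i < r ∨ ¬ A18.Sing (A18.ran a) ε r i),
      hJ J hJ0 _ (fun i hi => ?_), fun i hi hiE => ?_⟩
    · rw [mem_filter, mem_range] at hi
      exact hi
    · rw [mem_filter, mem_range] at hiE
      push Not at hiE
      obtain ⟨hri, S, hS1, hS2⟩ := hiE hi
      refine ⟨hri, S, hS1, ?_⟩
      rw [← A18.th_pow_eq]
      refine le_trans ?_ hS2
      have key : {n : ℕ | 0 ≤ a n ∧ a n < 2 ^ i ∧ ∀ s ∈ S,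
            ¬ ((s : ℤ) * 2 ^ (i - r) ≤ a n ∧ a n < ((s : ℤ) + 1) * 2 ^ (i - r))}.ncard
          ≤ (((A18.els (A18.ran a) (2 ^ i)).filter (fun x => x / 2 ^ (i - r) ∉ S) : Finset ℕ) : Set ℕ).ncard := by
        refine Set.ncard_le_ncard_of_injOn (fun n => (a n).toNat) ?_ ?_ (Finset.finite_toSet _)
        · rintro n ⟨h0, h1, h2⟩
          have hx : ((a n).toNat : ℤ) = a n := Int.toNat_of_nonneg h0
          simp only [coe_filter, Set.mem_setOf_eq, A18.mem_els]
          refine ⟨⟨?_, n, hx.symm⟩, fun hmem => ?_⟩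
          · have : ((a n).toNat : ℤ) < ((2 ^ i : ℕ) : ℤ) := by
              rw [hx]
              push_cast
              exact h1
            exact_mod_cast this
          · refine h2 _ hmem ⟨?_, ?_⟩
            · rw [← hx]
              exact_mod_cast Nat.div_mul_le_self _ _
            · rw [← hx]
              have h3 : (a n).toNat < ((a n).toNat / 2 ^ (i - r) + 1) * 2 ^ (i - r) := by
                have e1 := Nat.div_add_mod (a n).toNat (2 ^ (i - r))
                have e2 : (a n).toNat % 2 ^ (i - r) < 2 ^ (i - r) := Nat.mod_lt _ (by positivity)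
                rw [add_mul, one_mul, mul_comm]
                omega
              exact_mod_cast h3
        · rintro n ⟨h0, -⟩ n' ⟨h0', -⟩ heq
          apply hmono.injective
          have : ((a n).toNat : ℤ) = ((a n').toNat : ℤ) := by exact_mod_cast heq
          rwa [Int.toNat_of_nonneg h0, Int.toNat_of_nonneg h0'] at this
      rw [Set.ncard_coe_finset] at key
      exact_mod_cast key
  · intro k δ hδ N
    rcases Nat.eq_zero_or_pos k with hk | hk
    · exact ⟨N, le_rfl, by rw [hk, add_zero, sub_self]; positivity⟩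
    · exact ((A18.gap_alt hmono hB k hk).resolve_left hq) δ hδ N

end Pool.Agent.Results.MP_a18a27_co.SingularScales
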